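import Mathlib

set_option linter.unusedSectionVars false

namespace MOF293

open Finset

variable {V : Type*}

/-- `D` is an orientation of `G`: every edge gets exactly one direction. -/
structure IsOrientation (G : SimpleGraph V) (D : V → V → Prop) : Prop where
  adj : ∀ u v, D u v → G.Adj u v
  tot : ∀ u v, G.Adj u v → D u v ∨ D v u
  asymm : ∀ u v, D u v → ¬ D v u

/-- The vertices that end up coloured when exactly `S` is coloured at the start: a coloured vertex
all of whose out-neighbours except `v` are coloured colours its out-neighbour `v`. -/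
inductive Coloured (D : V → V → Prop) (S : Finset V) : V → Prop
  | init {v : V} : v ∈ S → Coloured D S v
  | force {u v : V} : Coloured D S u → D u v →
      (∀ w, D u w → w ≠ v → Coloured D S w) → Coloured D S v

/-- forcing sets -/
def IsForcingSet (D : V → V → Prop) (S : Finset V) : Prop :=
  S.Nonempty ∧ ∀ v, Coloured D S v

/-- `F(D)` -/
noncomputable def forcingNumber (D : V → V → Prop) : ℕ :=
  sInf {k | ∃ S : Finset V, IsForcingSet D S ∧ S.card = k}

/-- `MOF(G)` -/
noncomputable def MOF (G : SimpleGraph V) : ℕ :=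
  sSup {k | ∃ D : V → V → Prop, IsOrientation G D ∧ forcingNumber D = k}

section internal

variable [DecidableEq V]

def Closed (D : V → V → Prop) (W A : Finset V) : Prop :=
  ∀ x ∈ A, ∀ w ∈ W, D x w → (∀ z ∈ W, D x z → z ≠ w → z ∈ A) → w ∈ A

def Forc (D : V → V → Prop) (W S : Finset V) : Prop :=
  S ⊆ W ∧ ∀ A, S ⊆ A → A ⊆ W → Closed D W A → A = W

open Classical in
noncomputable def cl (D : V → V → Prop) (W S : Finset V) : Finset V :=
  W.filter (fun v => ∀ A : Finset V, S ⊆ A → A ⊆ W → Closed D W A → v ∈ A)

theorem cl_sub (D : V → V → Prop) (W S : Finset V) : cl D W S ⊆ W := by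
  classical
  exact Finset.filter_subset _ _

theorem sub_cl (D : V → V → Prop) {W S : Finset V} (h : S ⊆ W) : S ⊆ cl D W S := by
  classical
  intro x hx
  exact Finset.mem_filter.2 ⟨h hx, fun A hA _ _ => hA hx⟩

theorem cl_min {D : V → V → Prop} {W S A : Finset V} (h1 : S ⊆ A) (h2 : A ⊆ W)
    (h3 : Closed D W A) : cl D W S ⊆ A := by
  classical
  intro x hx
  exact (Finset.mem_filter.1 hx).2 A h1 h2 h3

theorem cl_closed (D : V → V → Prop) (W S : Finset V) : Closed D W (cl D W S) := by
  classical
  intro x hx w hw hxw hz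
  refine Finset.mem_filter.2 ⟨hw, fun A h1 h2 h3 => ?_⟩
  exact h3 x ((Finset.mem_filter.1 hx).2 A h1 h2 h3) w hw hxw
    (fun z hzW hxz hne => (Finset.mem_filter.1 (hz z hzW hxz hne)).2 A h1 h2 h3)

theorem forc_of_cl {D : V → V → Prop} {W S : Finset V} (h : S ⊆ W) (h2 : cl D W S = W) :
    Forc D W S := by
  refine ⟨h, fun A h3 h4 h5 => ?_⟩
  apply Finset.Subset.antisymm h4
  rw [← h2]
  exact cl_min h3 h4 h5

/-- `D` orients `G` on `W` -/
def OrW (G : SimpleGraph V) (W : Finset V) (D : V → V → Prop) : Prop :=
  ∀ u ∈ W, ∀ v ∈ W, (D u v → G.Adj u v) ∧ (G.Adj u v → D u v ∨ D v u) ∧ (D u v → ¬ D v u)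

def GoodK (G : SimpleGraph V) (W : Finset V) (k : ℕ) : Prop :=
  ∃ D : V → V → Prop, OrW G W D ∧ ∀ S, Forc D W S → W.card ≤ S.card + k

/-- a vertex without in-arcs belongs to every forcing set -/
theorem source_mem {D : V → V → Prop} {W S : Finset V} (h : Forc D W S) {u : V} (hu : u ∈ W)
    (hs : ∀ x ∈ W, ¬ D x u) : u ∈ S := by
  by_contra hn
  have := h.2 (W.erase u) (fun x hx => Finset.mem_erase.2 ⟨fun e => hn (e ▸ hx), h.1 hx⟩)
    (Finset.erase_subset _ _) (fun x hx w hw hxw _ => Finset.mem_erase.2
      ⟨fun e => hs x (Finset.mem_erase.1 hx).2 (e ▸ hxw), hw⟩)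
  have h2 : u ∈ W.erase u := by rw [this]; exact hu
  exact (Finset.mem_erase.1 h2).1 rfl

/-! ### comparability graphs -/

theorem comp_core (W : Finset V) (D : V → V → Prop)
    (ht : ∀ u ∈ W, ∀ v ∈ W, ∀ w ∈ W, D u v → D v w → D u w) (S : Finset V) (hS : Forc D W S) :
    ∃ f : V → V, (∀ y ∈ W, y ∉ S → f y ∈ S ∧ D (f y) y) ∧
      (∀ y ∈ W, y ∉ S → ∀ y' ∈ W, y' ∉ S → f y = f y' → y = y') := by
  classical
  -- P C : there is an injection from C \ S to S
  let P : Finset V → Prop := fun C => S ⊆ C ∧ C ⊆ W ∧ ∃ f : V → V, (∀ y ∈ C, y ∉ S → f y ∈ S ∧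
    D (f y) y ∧ ∀ z ∈ W, D (f y) z → z ∈ C) ∧ (∀ y ∈ C, y ∉ S → ∀ y' ∈ C, y' ∉ S → f y = f y' → y = y')
  have hP0 : P S := ⟨Finset.Subset.refl _, hS.1, id, fun y hy hn => absurd hy hn,
    fun y hy hn => absurd hy hn⟩
  obtain ⟨C, hC, hmax⟩ : ∃ C, P C ∧ ∀ C', P C' → C'.card ≤ C.card := by
    have hfin : ({C | P C} : Set (Finset V)).Finite :=
      (Finset.finite_toSet W.powerset).subset (fun C hC => by simpa using hC.2.1)
    obtain ⟨C, hC, hm⟩ := Set.exists_max_image {C | P C} Finset.card hfin ⟨S, hP0⟩
    exact ⟨C, hC, hm⟩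
  obtain ⟨h1, h2, f, hf1, hf2⟩ := hC
  have hCW : C = W := by
    by_contra hne
    have hncl : ¬ Closed D W C := fun hc => hne (hS.2 C h1 h2 hc)
    unfold Closed at hncl
    push Not at hncl
    obtain ⟨x, hx, w, hw, hxw, hz, hwC⟩ := hncl
    have hxS : x ∈ S := by
      by_contra hxS
      obtain ⟨ha, hb, hc⟩ := hf1 x hx hxS
      exact hwC (hc w hw (ht _ (hS.1 ha) _ (h2 hx) _ hw hb hxw))
    have : P (insert w C) := by
      refine ⟨fun y hy => Finset.mem_insert_of_mem (h1 hy), ?_, fun y => if y = w then x else f y, ?_, ?_⟩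
      · intro y hy
        rcases Finset.mem_insert.1 hy with rfl | hy
        · exact hw
        · exact h2 hy
      · intro y hy hyS
        rcases Finset.mem_insert.1 hy with rfl | hy
        · simp only [if_true]
          refine ⟨hxS, hxw, fun z hzW hxz => ?_⟩
          by_cases hzy : z = y
          · exact hzy ▸ Finset.mem_insert_self _ _
          · exact Finset.mem_insert_of_mem (hz z hzW hxz hzy)
        · have hyw : y ≠ w := fun e => hwC (e ▸ hy)
          simp only [hyw, if_false]
          obtain ⟨ha, hb, hc⟩ := hf1 y hy hyS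
          exact ⟨ha, hb, fun z hzW hxz => Finset.mem_insert_of_mem (hc z hzW hxz)⟩
      · intro y hy hyS y' hy' hyS' he
        rcases Finset.mem_insert.1 hy with e | hy
        · rcases Finset.mem_insert.1 hy' with e' | hy'
          · rw [e, e']
          · exfalso
            have hyw : y' ≠ w := fun e => hwC (e ▸ hy')
            simp only [e, hyw, if_true, if_false] at he
            obtain ⟨ha, hb, hc⟩ := hf1 y' hy' hyS'
            exact hwC (hc w hw (he ▸ hxw))
        · rcases Finset.mem_insert.1 hy' with e' | hy'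
          · exfalso
            have hyw : y ≠ w := fun e => hwC (e ▸ hy)
            simp only [e', hyw, if_true, if_false] at he
            obtain ⟨ha, hb, hc⟩ := hf1 y hy hyS
            exact hwC (hc w hw (he ▸ hxw))
          · have hyw : y ≠ w := fun e => hwC (e ▸ hy)
            have hyw' : y' ≠ w := fun e => hwC (e ▸ hy')
            simp only [hyw, hyw', if_false] at he
            exact hf2 y hy hyS y' hy' hyS' he
    have h3 := hmax _ this
    rw [Finset.card_insert_of_notMem hwC] at h3
    omega
  subst hCW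
  exact ⟨f, fun y hy hn => ⟨(hf1 y hy hn).1, (hf1 y hy hn).2.1⟩, hf2⟩

/-- sets of pairwise disjoint edges of `G[W]` -/
def IsMatchingOn (G : SimpleGraph V) (W : Finset V) (M : Finset (Sym2 V)) : Prop :=
  (∀ e ∈ M, e ∈ G.edgeSet ∧ ∀ v ∈ e, v ∈ W) ∧ (∀ e ∈ M, ∀ f ∈ M, e ≠ f → ∀ v, v ∈ e → v ∉ f)

/-- the matching number of `G[W]` -/
noncomputable def matchOn (G : SimpleGraph V) (W : Finset V) : ℕ :=
  sSup {k | ∃ M : Finset (Sym2 V), IsMatchingOn G W M ∧ M.card = k}

theorem le_matchOn {G : SimpleGraph V} {W : Finset V} {M : Finset (Sym2 V)}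
    (h : IsMatchingOn G W M) : M.card ≤ matchOn G W := by
  apply le_csSup
  · refine ⟨W.sym2.card, ?_⟩
    rintro k ⟨M, hM, rfl⟩
    apply Finset.card_le_card
    intro e he
    exact Finset.mem_sym2_iff.2 (hM.1 e he).2
  · exact ⟨M, h, rfl⟩

theorem good_comp_half (G : SimpleGraph V) (W : Finset V) (D : V → V → Prop) (hD : OrW G W D)
    (ht : ∀ u ∈ W, ∀ v ∈ W, ∀ w ∈ W, D u v → D v w → D u w) : GoodK G W (W.card / 2) := by
  classical
  refine ⟨D, hD, fun S hS => ?_⟩
  obtain ⟨f, hf1, hf2⟩ := comp_core W D ht S hS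
  have h4 : (W \ S).card ≤ S.card := by
    apply Finset.card_le_card_of_injOn f
    · intro y hy
      rw [Finset.mem_coe, Finset.mem_sdiff] at hy
      exact (hf1 y hy.1 hy.2).1
    · intro y hy y' hy' he
      rw [Finset.mem_coe, Finset.mem_sdiff] at hy hy'
      exact hf2 y hy.1 hy.2 y' hy'.1 hy'.2 he
  have h5 := Finset.card_sdiff_add_card_eq_card hS.1
  omega

theorem good_comp_match (G : SimpleGraph V) (W : Finset V) (D : V → V → Prop) (hD : OrW G W D)
    (ht : ∀ u ∈ W, ∀ v ∈ W, ∀ w ∈ W, D u v → D v w → D u w) : GoodK G W (matchOn G W) := by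
  classical
  refine ⟨D, hD, fun S hS => ?_⟩
  obtain ⟨f, hf1, hf2⟩ := comp_core W D ht S hS
  have hinj : Set.InjOn (fun y => s(f y, y)) (W \ S : Finset V) := by
    intro y hy y' hy' he
    rw [Finset.mem_coe, Finset.mem_sdiff] at hy hy'
    simp only [Sym2.eq_iff] at he
    rcases he with ⟨_, h⟩ | ⟨h, h'⟩
    · exact h
    · exfalso
      apply hy'.2
      rw [← h]
      exact (hf1 y hy.1 hy.2).1
  have h4 : ((W \ S).image (fun y => s(f y, y))).card ≤ matchOn G W := by
    apply le_matchOn
    constructor
    · intro e he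
      obtain ⟨y, hy, rfl⟩ := Finset.mem_image.1 he
      rw [Finset.mem_sdiff] at hy
      obtain ⟨h1, h2⟩ := hf1 y hy.1 hy.2
      refine ⟨(hD _ (hS.1 h1) _ hy.1).1 h2, ?_⟩
      intro v hv
      rcases Sym2.mem_iff.1 hv with rfl | rfl
      · exact hS.1 h1
      · exact hy.1
    · intro e he e' he' hne v hv hv'
      obtain ⟨y, hy, rfl⟩ := Finset.mem_image.1 he
      obtain ⟨y', hy', rfl⟩ := Finset.mem_image.1 he'
      rw [Finset.mem_sdiff] at hy hy'
      have hyy : y ≠ y' := fun e => hne (by rw [e])
      rcases Sym2.mem_iff.1 hv with h1 | h1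
      · rcases Sym2.mem_iff.1 hv' with h2 | h2
        · exact hyy (hf2 y hy.1 hy.2 y' hy'.1 hy'.2 (h1.symm.trans h2))
        · exact hy'.2 (by rw [← h2, h1]; exact (hf1 y hy.1 hy.2).1)
      · rcases Sym2.mem_iff.1 hv' with h2 | h2
        · exact hy.2 (by rw [← h1, h2]; exact (hf1 y' hy'.1 hy'.2).1)
        · exact hyy (h1.symm.trans h2)
  rw [Finset.card_image_of_injOn hinj] at h4
  have h5 := Finset.card_sdiff_add_card_eq_card hS.1
  omega

theorem card_erase2 {W : Finset V} {u v : V} (hu : u ∈ W) (hv : v ∈ W) (huv : u ≠ v) :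
    ((W.erase u).erase v).card + 2 = W.card := by
  have h1 := Finset.card_erase_add_one hu
  have h2 := Finset.card_erase_add_one (Finset.mem_erase.2 ⟨huv.symm, hv⟩ : v ∈ W.erase u)
  omega

theorem mem_e2 {W : Finset V} {u v x : V} : x ∈ (W.erase u).erase v ↔ x ≠ v ∧ x ≠ u ∧ x ∈ W := by
  simp only [Finset.mem_erase]

theorem good_vertex (G : SimpleGraph V) (W : Finset V) (v : V) (k : ℕ) (hv : v ∈ W)
    (h : GoodK G (W.erase v) k) : GoodK G W (k + 1) := by
  classical
  obtain ⟨D', hD', hF⟩ := h
  refine ⟨fun x y => if x = v then False else if y = v then G.Adj x v else D' x y, ?_, ?_⟩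
  · intro x hx y hy
    by_cases hxv : x = v
    · by_cases hyv : y = v
      · simp [hxv, hyv]
      · simp only [hxv, hyv, if_true, if_false]
        exact ⟨False.elim, fun h => Or.inr h.symm, fun h => h.elim⟩
    · by_cases hyv : y = v
      · simp only [hxv, hyv, if_true, if_false]
        exact ⟨fun h => h, fun h => Or.inl h, fun _ h => h⟩
      · simp only [hxv, hyv, if_false]
        exact hD' x (Finset.mem_erase.2 ⟨hxv, hx⟩) y (Finset.mem_erase.2 ⟨hyv, hy⟩)
  · intro S hS
    have h1 : Forc D' (W.erase v) (S.erase v) := by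
      apply forc_of_cl (Finset.erase_subset_erase _ hS.1)
      set T := cl D' (W.erase v) (S.erase v) with hT
      have hTW : T ⊆ W.erase v := cl_sub _ _ _
      have hA : insert v T = W := by
        apply hS.2
        · intro x hx
          by_cases hxv : x = v
          · rw [hxv]; exact Finset.mem_insert_self _ _
          · exact Finset.mem_insert_of_mem (sub_cl D' (Finset.erase_subset_erase _ hS.1)
              (Finset.mem_erase.2 ⟨hxv, hx⟩))
        · intro x hx
          rcases Finset.mem_insert.1 hx with rfl | hx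
          · exact hv
          · exact (Finset.mem_erase.1 (hTW hx)).2
        · intro x hx w hw hxw hz
          by_cases hwv : w = v
          · rw [hwv]; exact Finset.mem_insert_self _ _
          · have hxv : x ≠ v := by
              rintro rfl; simp at hxw
            simp only [hxv, hwv, if_false] at hxw
            have hxT : x ∈ T := (Finset.mem_insert.1 hx).resolve_left hxv
            refine Finset.mem_insert_of_mem (cl_closed D' _ _ x hxT w
              (Finset.mem_erase.2 ⟨hwv, hw⟩) hxw fun z hz1 hz2 hz3 => ?_)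
            obtain ⟨hzv, hzW⟩ := Finset.mem_erase.1 hz1
            have := hz z hzW (by simp only [hxv, hzv, if_false]; exact hz2) hz3
            exact (Finset.mem_insert.1 this).resolve_left hzv
      apply Finset.Subset.antisymm hTW
      intro x hx
      obtain ⟨h1, h2⟩ := Finset.mem_erase.1 hx
      rw [← hA] at h2
      exact (Finset.mem_insert.1 h2).resolve_left h1
    have h2 := hF _ h1
    have h3 := Finset.card_erase_add_one hv
    have h4 : (S.erase v).card ≤ S.card := Finset.card_le_card (Finset.erase_subset _ _)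
    omega

theorem good_pendant (G : SimpleGraph V) (W : Finset V) (u v : V) (k : ℕ) (hu : u ∈ W) (hv : v ∈ W)
    (huv : u ≠ v) (hN : ∀ x ∈ W, G.Adj u x → x = v) (h : GoodK G ((W.erase u).erase v) k) :
    GoodK G W (k + 1) := by
  classical
  obtain ⟨D', hD', hF⟩ := h
  refine ⟨fun x y => if x = v then False else if y = v then G.Adj x v else
    if x = u ∨ y = u then False else D' x y, ?_, ?_⟩
  · intro x hx y hy
    by_cases hxv : x = v
    · by_cases hyv : y = v
      · simp [hxv, hyv]
      · simp only [hxv, hyv, if_true, if_false]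
        exact ⟨False.elim, fun h => Or.inr h.symm, fun h => h.elim⟩
    · by_cases hyv : y = v
      · simp only [hxv, hyv, if_true, if_false]
        exact ⟨fun h => h, fun h => Or.inl h, fun _ h => h⟩
      · by_cases hxu : x = u
        · have : ¬ G.Adj u y := fun h => hyv (hN y hy h)
          simp [hxu, hyv, huv, this]
        · by_cases hyu : y = u
          · have : ¬ G.Adj x u := fun h => hxv (hN x hx h.symm)
            simp [hyu, hxv, huv, this]
          · simp only [hxv, hyv, hxu, hyu, if_false, or_self]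
            exact hD' x (mem_e2.2 ⟨hxv, hxu, hx⟩) y (mem_e2.2 ⟨hyv, hyu, hy⟩)
  · intro S hS
    have huS : u ∈ S := by
      apply source_mem hS hu
      intro x hx
      by_cases hxv : x = v
      · simp [hxv]
      · simp [hxv, huv]
    have hsub : (S.erase u).erase v ⊆ (W.erase u).erase v :=
      Finset.erase_subset_erase _ (Finset.erase_subset_erase _ hS.1)
    have h1 : Forc D' ((W.erase u).erase v) ((S.erase u).erase v) := by
      apply forc_of_cl hsub
      set T := cl D' ((W.erase u).erase v) ((S.erase u).erase v) with hT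
      have hTW : T ⊆ (W.erase u).erase v := cl_sub _ _ _
      have hA : insert u (insert v T) = W := by
        apply hS.2
        · intro x hx
          by_cases hxv : x = v
          · rw [hxv]; simp
          · by_cases hxu : x = u
            · rw [hxu]; simp
            · exact Finset.mem_insert_of_mem (Finset.mem_insert_of_mem (sub_cl D' hsub
                (mem_e2.2 ⟨hxv, hxu, hx⟩)))
        · intro x hx
          rcases Finset.mem_insert.1 hx with rfl | hx
          · exact hu
          · rcases Finset.mem_insert.1 hx with rfl | hx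
            · exact hv
            · exact (mem_e2.1 (hTW hx)).2.2
        · intro x hx w hw hxw hz
          by_cases hwv : w = v
          · rw [hwv]; simp
          · by_cases hwu : w = u
            · rw [hwu]; simp
            · have hxv : x ≠ v := by
                rintro rfl; simp at hxw
              have hxu : x ≠ u := by
                rintro rfl; simp [hwv, huv] at hxw
              simp only [hxv, hwv, hxu, hwu, if_false, or_self] at hxw
              have hxT : x ∈ T :=
                (Finset.mem_insert.1 ((Finset.mem_insert.1 hx).resolve_left hxu)).resolve_left hxv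
              refine Finset.mem_insert_of_mem (Finset.mem_insert_of_mem (cl_closed D' _ _ x hxT w
                (mem_e2.2 ⟨hwv, hwu, hw⟩) hxw fun z hz1 hz2 hz3 => ?_))
              obtain ⟨hzv, hzu, hzW⟩ := mem_e2.1 hz1
              have := hz z hzW (by simp only [hxv, hzv, hxu, hzu, if_false, or_self]; exact hz2) hz3
              exact (Finset.mem_insert.1 ((Finset.mem_insert.1 this).resolve_left hzu)).resolve_left hzv
      apply Finset.Subset.antisymm hTW
      intro x hx
      obtain ⟨h1, h2, h3⟩ := mem_e2.1 hx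
      rw [← hA] at h3
      exact (Finset.mem_insert.1 ((Finset.mem_insert.1 h3).resolve_left h2)).resolve_left h1
    have h2 := hF _ h1
    have h3 := card_erase2 hu hv huv
    have h4 : ((S.erase u).erase v).card ≤ (S.erase u).card :=
      Finset.card_le_card (Finset.erase_subset _ _)
    have h5 := Finset.card_erase_add_one huS
    omega

theorem good_twins (G : SimpleGraph V) (W : Finset V) (u v : V) (k : ℕ) (hu : u ∈ W) (hv : v ∈ W)
    (huv : u ≠ v) (hN : ∀ x ∈ W, x ≠ u → x ≠ v → (G.Adj u x ↔ G.Adj v x))
    (h : GoodK G ((W.erase u).erase v) k) : GoodK G W (k + 1) := by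
  classical
  obtain ⟨D', hD', hF⟩ := h
  set W' := (W.erase u).erase v with hW'
  set D : V → V → Prop := fun x y => if y = u then False else if x = u then G.Adj u y else
    if y = v then False else if x = v then G.Adj v y else D' x y with hDdef
  have dU : ∀ x, ¬ D x u := by intro x; simp [hDdef]
  have dUy : ∀ y, y ≠ u → (D u y ↔ G.Adj u y) := by intro y hy; simp [hDdef, hy]
  have dV : ∀ x, x ≠ u → ¬ D x v := by intro x hx; simp [hDdef, hx, huv.symm]
  have dVy : ∀ y, y ≠ u → y ≠ v → (D v y ↔ G.Adj v y) := by
    intro y hy hy'; simp [hDdef, hy, hy', huv.symm]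
  have dI : ∀ x y, x ≠ u → x ≠ v → y ≠ u → y ≠ v → (D x y ↔ D' x y) := by
    intro x y h1 h2 h3 h4; simp [hDdef, h1, h2, h3, h4]
  refine ⟨D, ?_, ?_⟩
  · intro x hx y hy
    by_cases hxu : x = u
    · by_cases hyu : y = u
      · subst hxu; subst hyu
        exact ⟨fun h => absurd h (dU _), fun h => absurd h (G.loopless.irrefl _), fun h => absurd h (dU _)⟩
      · subst hxu
        exact ⟨fun h => (dUy y hyu).1 h, fun h => Or.inl ((dUy y hyu).2 h), fun _ h => dU _ h⟩
    · by_cases hyu : y = u
      · subst hyu
        exact ⟨fun h => absurd h (dU _), fun h => Or.inr ((dUy x hxu).2 h.symm), fun h => absurd h (dU _)⟩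
      · by_cases hxv : x = v
        · by_cases hyv : y = v
          · subst hxv; subst hyv
            exact ⟨fun h => absurd h (dV _ hxu), fun h => absurd h (G.loopless.irrefl _),
              fun h => absurd h (dV _ hxu)⟩
          · subst hxv
            exact ⟨fun h => (dVy y hyu hyv).1 h, fun h => Or.inl ((dVy y hyu hyv).2 h),
              fun _ h => dV _ hyu h⟩
        · by_cases hyv : y = v
          · subst hyv
            exact ⟨fun h => absurd h (dV _ hxu), fun h => Or.inr ((dVy x hxu hxv).2 h.symm),
              fun h => absurd h (dV _ hxu)⟩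
          · rw [dI x y hxu hxv hyu hyv, dI y x hyu hyv hxu hxv]
            exact hD' x (mem_e2.2 ⟨hxv, hxu, hx⟩) y (mem_e2.2 ⟨hyv, hyu, hy⟩)
  · intro S hS
    have huS : u ∈ S := source_mem hS hu (fun x _ => dU x)
    set S0 := (S.erase u).erase v with hS0
    have hsub : S0 ⊆ W' := Finset.erase_subset_erase _ (Finset.erase_subset_erase _ hS.1)
    have c5 := Finset.card_erase_add_one huS
    have c4 : S0.card ≤ (S.erase u).card := Finset.card_le_card (Finset.erase_subset _ _)
    have c3 : W'.card + 2 = W.card := card_erase2 hu hv huv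
    -- inner forces stay inside closed sets
    have inner : ∀ T, T ⊆ W' → Closed D' W' T → ∀ A, T ⊆ A → (∀ z ∈ A, z ∈ W' → z ∈ T) →
        ∀ x ∈ T, ∀ w ∈ W, D x w → (∀ z ∈ W, D x z → z ≠ w → z ∈ A) → w ∈ T := by
      intro T hTW hTc A hTA hAT x hx w hw hxw hz
      obtain ⟨hxv, hxu, hxW⟩ := mem_e2.1 (hTW hx)
      have hwu : w ≠ u := fun e => dU x (e ▸ hxw)
      have hwv : w ≠ v := fun e => dV x hxu (e ▸ hxw)
      refine hTc x hx w (mem_e2.2 ⟨hwv, hwu, hw⟩) ((dI x w hxu hxv hwu hwv).1 hxw) ?_
      intro z hz1 hz2 hz3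
      obtain ⟨hzv, hzu, hzW⟩ := mem_e2.1 hz1
      exact hAT z (hz z hzW ((dI x z hxu hxv hzu hzv).2 hz2) hz3) hz1
    have full : ∀ T, S0 ⊆ T → T ⊆ W' → Closed D' W' T → (∀ y ∈ W', G.Adj u y → y ∈ T) →
        T = W' := by
      intro T hST hTW hTc hNT
      have hA : insert u (insert v T) = W := by
        apply hS.2
        · intro x hx
          by_cases hxv : x = v
          · rw [hxv]; simp
          · by_cases hxu : x = u
            · rw [hxu]; simp
            · exact Finset.mem_insert_of_mem (Finset.mem_insert_of_mem (hST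
                (mem_e2.2 ⟨hxv, hxu, hx⟩)))
        · intro x hx
          rcases Finset.mem_insert.1 hx with rfl | hx
          · exact hu
          · rcases Finset.mem_insert.1 hx with rfl | hx
            · exact hv
            · exact (mem_e2.1 (hTW hx)).2.2
        · intro x hx w hw hxw hz
          by_cases hwv : w = v
          · rw [hwv]; simp
          · by_cases hwu : w = u
            · rw [hwu]; simp
            · refine Finset.mem_insert_of_mem (Finset.mem_insert_of_mem ?_)
              have hwW' : w ∈ W' := mem_e2.2 ⟨hwv, hwu, hw⟩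
              rcases Finset.mem_insert.1 hx with e | hx
              · subst e
                exact hNT w hwW' ((dUy w hwu).1 hxw)
              · rcases Finset.mem_insert.1 hx with e | hx
                · subst e
                  exact hNT w hwW' ((hN w hw hwu hwv).2 ((dVy w hwu hwv).1 hxw))
                · exact inner T hTW hTc (insert u (insert v T))
                    (fun z hz => Finset.mem_insert_of_mem (Finset.mem_insert_of_mem hz))
                    (fun z hz hz' => by
                      obtain ⟨a, b, _⟩ := mem_e2.1 hz'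
                      exact (Finset.mem_insert.1 ((Finset.mem_insert.1 hz).resolve_left b)).resolve_left a)
                    x hx w hw hxw hz
      apply Finset.Subset.antisymm hTW
      intro x hx
      obtain ⟨h1, h2, h3⟩ := mem_e2.1 hx
      rw [← hA] at h3
      exact (Finset.mem_insert.1 ((Finset.mem_insert.1 h3).resolve_left h2)).resolve_left h1
    set T0 := cl D' W' S0 with hT0
    have hT0W : T0 ⊆ W' := cl_sub _ _ _
    have hT0c : Closed D' W' T0 := cl_closed _ _ _
    have hST0 : S0 ⊆ T0 := sub_cl _ hsub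
    by_cases hfull : T0 = W'
    · have := hF S0 (forc_of_cl hsub hfull)
      omega
    · -- some neighbour of u is missing
      have hmiss : ∃ y ∈ W', G.Adj u y ∧ y ∉ T0 := by
        by_contra hcon
        push Not at hcon
        exact hfull (full T0 hST0 hT0W hT0c hcon)
      obtain ⟨y, hyW', huy, hyT⟩ := hmiss
      obtain ⟨hyv, hyu, hyW⟩ := mem_e2.1 hyW'
      have hvS : v ∈ S := by
        by_contra hvS
        by_cases hadj : G.Adj u v
        · have hA : insert u T0 = W := by
            apply hS.2
            · intro x hx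
              by_cases hxu : x = u
              · rw [hxu]; simp
              · exact Finset.mem_insert_of_mem (hST0 (mem_e2.2 ⟨fun e => hvS (e ▸ hx), hxu, hx⟩))
            · intro x hx
              rcases Finset.mem_insert.1 hx with rfl | hx
              · exact hu
              · exact (mem_e2.1 (hT0W hx)).2.2
            · intro x hx w hw hxw hz
              rcases Finset.mem_insert.1 hx with e | hx
              · subst e
                exfalso
                have hwu : w ≠ x := fun e => dU x (e ▸ hxw)
                by_cases hwv : w = v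
                · subst hwv
                  have := hz y hyW ((dUy y hyu).2 huy) hyv
                  exact hyT ((Finset.mem_insert.1 this).resolve_left hyu)
                · have := hz v hv ((dUy v huv.symm).2 hadj) (Ne.symm hwv)
                  exact (mem_e2.1 (hT0W ((Finset.mem_insert.1 this).resolve_left huv.symm))).1 rfl
              · exact Finset.mem_insert_of_mem (inner T0 hT0W hT0c (insert u T0)
                  (fun z hz => Finset.mem_insert_of_mem hz)
                  (fun z hz hz' => by
                    obtain ⟨a, b, _⟩ := mem_e2.1 hz'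
                    exact (Finset.mem_insert.1 hz).resolve_left b)
                  x hx w hw hxw hz)
          have : v ∈ insert u T0 := by rw [hA]; exact hv
          exact (mem_e2.1 (hT0W ((Finset.mem_insert.1 this).resolve_left huv.symm))).1 rfl
        · apply hvS
          apply source_mem hS hv
          intro x hx hxv
          by_cases hxu : x = u
          · subst hxu
            exact hadj ((dUy v huv.symm).1 hxv)
          · exact dV x hxu hxv
      have c4' : S0.card + 1 = (S.erase u).card :=
        Finset.card_erase_add_one (Finset.mem_erase.2 ⟨huv.symm, hvS⟩)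
      -- the first force out of T0 ∪ {u,v}
      have hex : ∃ w ∈ W', ∀ z ∈ W', G.Adj u z → z ≠ w → z ∈ T0 := by
        by_contra hcon
        push Not at hcon
        apply hfull
        have hA : insert u (insert v T0) = W := by
          apply hS.2
          · intro x hx
            by_cases hxv : x = v
            · rw [hxv]; simp
            · by_cases hxu : x = u
              · rw [hxu]; simp
              · exact Finset.mem_insert_of_mem (Finset.mem_insert_of_mem (hST0
                  (mem_e2.2 ⟨hxv, hxu, hx⟩)))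
          · intro x hx
            rcases Finset.mem_insert.1 hx with rfl | hx
            · exact hu
            · rcases Finset.mem_insert.1 hx with rfl | hx
              · exact hv
              · exact (mem_e2.1 (hT0W hx)).2.2
          · intro x hx w hw hxw hz
            by_cases hwv : w = v
            · rw [hwv]; simp
            · by_cases hwu : w = u
              · rw [hwu]; simp
              · have hwW' : w ∈ W' := mem_e2.2 ⟨hwv, hwu, hw⟩
                obtain ⟨z, hzW', huz, hzw, hzT⟩ := hcon w hwW'
                obtain ⟨hzv, hzu, hzW⟩ := mem_e2.1 hzW'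
                rcases Finset.mem_insert.1 hx with e | hx
                · exfalso
                  subst e
                  have := hz z hzW ((dUy z hzu).2 huz) hzw
                  exact hzT ((Finset.mem_insert.1 ((Finset.mem_insert.1 this).resolve_left hzu)).resolve_left hzv)
                · rcases Finset.mem_insert.1 hx with e | hx
                  · exfalso
                    subst e
                    have := hz z hzW ((dVy z hzu hzv).2 ((hN z hzW hzu hzv).1 huz)) hzw
                    exact hzT ((Finset.mem_insert.1 ((Finset.mem_insert.1 this).resolve_left hzu)).resolve_left hzv)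
                  · exact Finset.mem_insert_of_mem (Finset.mem_insert_of_mem
                      (inner T0 hT0W hT0c (insert u (insert v T0))
                      (fun z hz => Finset.mem_insert_of_mem (Finset.mem_insert_of_mem hz))
                      (fun z hz hz' => by
                        obtain ⟨a, b, _⟩ := mem_e2.1 hz'
                        exact (Finset.mem_insert.1 ((Finset.mem_insert.1 hz).resolve_left b)).resolve_left a)
                      x hx w hw hxw hz))
        apply Finset.Subset.antisymm hT0W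
        intro x hx
        obtain ⟨h1, h2, h3⟩ := mem_e2.1 hx
        rw [← hA] at h3
        exact (Finset.mem_insert.1 ((Finset.mem_insert.1 h3).resolve_left h2)).resolve_left h1
      obtain ⟨w, hwW', hw⟩ := hex
      have hsub1 : insert w S0 ⊆ W' := by
        intro x hx
        rcases Finset.mem_insert.1 hx with rfl | hx
        · exact hwW'
        · exact hsub hx
      have hT1 : cl D' W' (insert w S0) = W' := by
        apply full _ (fun x hx => sub_cl _ hsub1 (Finset.mem_insert_of_mem hx)) (cl_sub _ _ _)
          (cl_closed _ _ _)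
        intro z hz huz
        by_cases hzw : z = w
        · rw [hzw]; exact sub_cl _ hsub1 (Finset.mem_insert_self _ _)
        · exact cl_min (fun x hx => sub_cl _ hsub1 (Finset.mem_insert_of_mem hx)) (cl_sub _ _ _)
            (cl_closed _ _ _) (hw z hz huz hzw)
      have h6 := hF _ (forc_of_cl hsub1 hT1)
      have h7 : (insert w S0).card ≤ S0.card + 1 := Finset.card_insert_le _ _
      omega

/-! ### odd subdivision -/

theorem good_subdiv_aux (G G' : SimpleGraph V) (W : Finset V) (a b p q : V) (k : ℕ)
    (hb : b ∈ W) (hp : p ∈ W) (hq : q ∈ W)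
    (hap : a ≠ p) (haq : a ≠ q) (hbp : b ≠ p) (hbq : b ≠ q) (hpq : p ≠ q)
    (hNp : ∀ x ∈ W, G.Adj p x ↔ x = a ∨ x = q) (hNq : ∀ x ∈ W, G.Adj q x ↔ x = p ∨ x = b)
    (hG' : ∀ x ∈ (W.erase p).erase q, ∀ y ∈ (W.erase p).erase q,
      G'.Adj x y ↔ G.Adj x y ∨ (x = a ∧ y = b) ∨ (x = b ∧ y = a))
    (D' : V → V → Prop) (hD' : OrW G' ((W.erase p).erase q) D') (hab : D' a b) (haW : a ∈ W)
    (hF : ∀ S, Forc D' ((W.erase p).erase q) S → ((W.erase p).erase q).card ≤ S.card + k) :
    GoodK G W (k + 1) := by
  classical
  set W' := (W.erase p).erase q with hW'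
  set D : V → V → Prop := fun x y => if x = p then False else if y = p then (x = a ∨ x = q) else
    if y = q then False else if x = q then y = b else D' x y ∧ G.Adj x y with hDdef
  have dP : ∀ y, ¬ D p y := by intro y; simp [hDdef]
  have dTp : ∀ x, x ≠ p → (D x p ↔ x = a ∨ x = q) := by intro x hx; simp [hDdef, hx]
  have dTq : ∀ x, ¬ D x q := by intro x; by_cases hx : x = p <;> simp [hDdef, hx, hpq.symm]
  have dQ : ∀ y, y ≠ p → y ≠ q → (D q y ↔ y = b) := by
    intro y hy hy'; simp [hDdef, hy, hy', hpq.symm]
  have dI : ∀ x y, x ≠ p → x ≠ q → y ≠ p → y ≠ q → (D x y ↔ D' x y ∧ G.Adj x y) := by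
    intro x y h1 h2 h3 h4; simp [hDdef, h1, h2, h3, h4]
  have haW' : a ∈ W' := mem_e2.2 ⟨haq, hap, haW⟩
  have hbW' : b ∈ W' := mem_e2.2 ⟨hbq, hbp, hb⟩
  have dJ : ∀ x ∈ W', ∀ z ∈ W', D' x z → D x z ∨ (x = a ∧ z = b) := by
    intro x hx z hz hxz
    obtain ⟨x1, x2, x3⟩ := mem_e2.1 hx
    obtain ⟨z1, z2, z3⟩ := mem_e2.1 hz
    rcases (hG' x hx z hz).1 ((hD' x hx z hz).1 hxz) with h | h | h
    · exact Or.inl ((dI x z x2 x1 z2 z1).2 ⟨hxz, h⟩)
    · exact Or.inr h
    · exfalso
      rw [h.1, h.2] at hxz
      exact (hD' a haW' b hbW').2.2 hab hxz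
  refine ⟨D, ?_, ?_⟩
  · intro x hx y hy
    by_cases hxp : x = p
    · subst hxp
      by_cases hyp : y = x
      · subst hyp
        exact ⟨fun h => absurd h (dP _), fun h => absurd h (G.loopless.irrefl _), fun h => absurd h (dP _)⟩
      · exact ⟨fun h => absurd h (dP _), fun h => Or.inr ((dTp y hyp).2 ((hNp y hy).1 h)),
          fun h => absurd h (dP _)⟩
    · by_cases hyp : y = p
      · subst hyp
        exact ⟨fun h => ((hNp x hx).2 ((dTp x hxp).1 h)).symm,
          fun h => Or.inl ((dTp x hxp).2 ((hNp x hx).1 h.symm)), fun _ h => dP _ h⟩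
      · by_cases hxq : x = q
        · subst hxq
          by_cases hyq : y = x
          · subst hyq
            exact ⟨fun h => absurd h (dTq _), fun h => absurd h (G.loopless.irrefl _),
              fun h => absurd h (dTq _)⟩
          · refine ⟨fun h => (hNq y hy).2 (Or.inr ((dQ y hyp hyq).1 h)), fun h => Or.inl
              ((dQ y hyp hyq).2 (((hNq y hy).1 h).resolve_left hyp)), fun _ h => dTq _ h⟩
        · by_cases hyq : y = q
          · subst hyq
            refine ⟨fun h => absurd h (dTq _), fun h => Or.inr ((dQ x hxp hxq).2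
              (((hNq x hx).1 h.symm).resolve_left hxp)), fun h => absurd h (dTq _)⟩
          · rw [dI x y hxp hxq hyp hyq, dI y x hyp hyq hxp hxq]
            have h3 := hD' x (mem_e2.2 ⟨hxq, hxp, hx⟩) y (mem_e2.2 ⟨hyq, hyp, hy⟩)
            refine ⟨fun h => h.2, fun h => ?_, fun h h' => h3.2.2 h.1 h'.1⟩
            rcases h3.2.1 ((hG' x (mem_e2.2 ⟨hxq, hxp, hx⟩) y (mem_e2.2 ⟨hyq, hyp, hy⟩)).2
              (Or.inl h)) with h4 | h4
            · exact Or.inl ⟨h4, h⟩
            · exact Or.inr ⟨h4, h.symm⟩
  · intro S hS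
    have hqS : q ∈ S := source_mem hS hq (fun x _ => dTq x)
    set S0 := (S.erase p).erase q with hS0
    have hsub : S0 ⊆ W' := Finset.erase_subset_erase _ (Finset.erase_subset_erase _ hS.1)
    have c5 : S0.card + 1 = (S.erase p).card :=
      Finset.card_erase_add_one (Finset.mem_erase.2 ⟨hpq.symm, hqS⟩)
    have c4 : (S.erase p).card ≤ S.card := Finset.card_le_card (Finset.erase_subset _ _)
    have c3 : W'.card + 2 = W.card := card_erase2 hp hq hpq
    have inner : ∀ T, T ⊆ W' → Closed D' W' T → ∀ A : Finset V, (∀ z ∈ A, z ∈ W' → z ∈ T) →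
        ∀ x ∈ T, (x = a → b ∈ T) → ∀ w ∈ W', D x w → (∀ z ∈ W, D x z → z ≠ w → z ∈ A) → w ∈ T := by
      intro T hTW hTc A hAT x hx hxa w hw hxw hz
      obtain ⟨hxq, hxp, hxW⟩ := mem_e2.1 (hTW hx)
      obtain ⟨hwq, hwp, hwW⟩ := mem_e2.1 hw
      refine hTc x hx w hw ((dI x w hxp hxq hwp hwq).1 hxw).1 ?_
      intro z hz1 hz2 hz3
      rcases dJ x (hTW hx) z hz1 hz2 with h | h
      · exact hAT z (hz z (mem_e2.1 hz1).2.2 h hz3) hz1
      · rw [h.2]; exact hxa h.1
    have full : ∀ T, S0 ⊆ T → T ⊆ W' → Closed D' W' T → b ∈ T → T = W' := by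
      intro T hST hTW hTc hbT
      have hA : insert p (insert q T) = W := by
        apply hS.2
        · intro x hx
          by_cases hxv : x = q
          · rw [hxv]; simp
          · by_cases hxu : x = p
            · rw [hxu]; simp
            · exact Finset.mem_insert_of_mem (Finset.mem_insert_of_mem (hST
                (mem_e2.2 ⟨hxv, hxu, hx⟩)))
        · intro x hx
          rcases Finset.mem_insert.1 hx with rfl | hx
          · exact hp
          · rcases Finset.mem_insert.1 hx with rfl | hx
            · exact hq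
            · exact (mem_e2.1 (hTW hx)).2.2
        · intro x hx w hw hxw hz
          by_cases hwq : w = q
          · rw [hwq]; simp
          · by_cases hwp : w = p
            · rw [hwp]; simp
            · refine Finset.mem_insert_of_mem (Finset.mem_insert_of_mem ?_)
              have hwW' : w ∈ W' := mem_e2.2 ⟨hwq, hwp, hw⟩
              rcases Finset.mem_insert.1 hx with e | hx
              · subst e
                exact absurd hxw (dP _)
              · rcases Finset.mem_insert.1 hx with e | hx
                · subst e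
                  rw [(dQ w hwp hwq).1 hxw]; exact hbT
                · exact inner T hTW hTc (insert p (insert q T))
                    (fun z hz hz' => by
                      obtain ⟨a, b, _⟩ := mem_e2.1 hz'
                      exact (Finset.mem_insert.1 ((Finset.mem_insert.1 hz).resolve_left b)).resolve_left a)
                    x hx (fun _ => hbT) w hwW' hxw hz
      apply Finset.Subset.antisymm hTW
      intro x hx
      obtain ⟨h1, h2, h3⟩ := mem_e2.1 hx
      rw [← hA] at h3
      exact (Finset.mem_insert.1 ((Finset.mem_insert.1 h3).resolve_left h2)).resolve_left h1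
    by_cases hpS : p ∈ S
    · have c6 := Finset.card_erase_add_one hpS
      have hsub1 : insert b S0 ⊆ W' := by
        intro x hx
        rcases Finset.mem_insert.1 hx with rfl | hx
        · exact hbW'
        · exact hsub hx
      have h6 := hF _ (forc_of_cl hsub1 (full _
        (fun x hx => sub_cl _ hsub1 (Finset.mem_insert_of_mem hx)) (cl_sub _ _ _)
          (cl_closed _ _ _) (sub_cl _ hsub1 (Finset.mem_insert_self _ _))))
      have h7 : (insert b S0).card ≤ S0.card + 1 := Finset.card_insert_le _ _
      omega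
    · set T := cl D' W' S0 with hT
      have hTW : T ⊆ W' := cl_sub _ _ _
      have hTc : Closed D' W' T := cl_closed _ _ _
      have hbT : b ∈ T := by
        by_contra hbT
        have hA : insert q T = W := by
          apply hS.2
          · intro x hx
            by_cases hxv : x = q
            · rw [hxv]; simp
            · exact Finset.mem_insert_of_mem (sub_cl _ hsub
                (mem_e2.2 ⟨hxv, fun e => hpS (e ▸ hx), hx⟩))
          · intro x hx
            rcases Finset.mem_insert.1 hx with rfl | hx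
            · exact hq
            · exact (mem_e2.1 (hTW hx)).2.2
          · intro x hx w hw hxw hz
            have hAT : ∀ z : V, z ∈ (insert q T : Finset V) → z ∈ W' → z ∈ T := fun z hz hz' =>
              (Finset.mem_insert.1 hz).resolve_left (mem_e2.1 hz').1
            have hpA : p ∉ (insert q T : Finset V) := by
              intro h
              rcases Finset.mem_insert.1 h with h | h
              · exact hpq h
              · exact (mem_e2.1 (hTW h)).2.1 rfl
            by_cases hwq : w = q
            · rw [hwq]; simp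
            · rcases Finset.mem_insert.1 hx with e | hx
              · exfalso
                subst e
                by_cases hwp : w = p
                · exact hbT (hAT b (hz b hb ((dQ b hbp hbq).2 rfl) (by rw [hwp]; exact hbp)) hbW')
                · have := (dQ w hwp hwq).1 hxw
                  exact hpA (hz p hp ((dTp x hpq.symm).2 (Or.inr rfl)) (Ne.symm hwp))
              · obtain ⟨hxq, hxp, hxW⟩ := mem_e2.1 (hTW hx)
                by_cases hwp : w = p
                · exfalso
                  subst hwp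
                  have hxa : x = a := ((dTp x hxp).1 hxw).resolve_right hxq
                  subst hxa
                  apply hbT
                  refine hTc x hx b hbW' hab ?_
                  intro z hz1 hz2 hz3
                  rcases dJ x (hTW hx) z hz1 hz2 with h | h
                  · exact hAT z (hz z (mem_e2.1 hz1).2.2 h (mem_e2.1 hz1).2.1) hz1
                  · exact absurd h.2 hz3
                · by_cases hxa : x = a
                  · exfalso
                    exact hpA (hz p hp ((dTp x hxp).2 (Or.inl hxa)) (Ne.symm hwp))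
                  · exact Finset.mem_insert_of_mem (inner T hTW hTc (insert q T) hAT x hx
                      (fun h => absurd h hxa) w (mem_e2.2 ⟨hwq, hwp, hw⟩) hxw hz)
        have : b ∈ insert q T := by rw [hA]; exact hb
        exact hbT ((Finset.mem_insert.1 this).resolve_left hbq)
      have := hF _ (forc_of_cl hsub (full T (sub_cl _ hsub) hTW hTc hbT))
      omega

theorem good_subdiv (G G' : SimpleGraph V) (W : Finset V) (a b p q : V) (k : ℕ)
    (ha : a ∈ W) (hb : b ∈ W) (hp : p ∈ W) (hq : q ∈ W)
    (hap : a ≠ p) (haq : a ≠ q) (hbp : b ≠ p) (hbq : b ≠ q) (hpq : p ≠ q)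
    (hNp : ∀ x ∈ W, G.Adj p x ↔ x = a ∨ x = q) (hNq : ∀ x ∈ W, G.Adj q x ↔ x = p ∨ x = b)
    (hG' : ∀ x ∈ (W.erase p).erase q, ∀ y ∈ (W.erase p).erase q,
      G'.Adj x y ↔ G.Adj x y ∨ (x = a ∧ y = b) ∨ (x = b ∧ y = a))
    (h : GoodK G' ((W.erase p).erase q) k) : GoodK G W (k + 1) := by
  obtain ⟨D', hD', hF⟩ := h
  have haW' : a ∈ (W.erase p).erase q := mem_e2.2 ⟨haq, hap, ha⟩
  have hbW' : b ∈ (W.erase p).erase q := mem_e2.2 ⟨hbq, hbp, hb⟩
  rcases (hD' a haW' b hbW').2.1 ((hG' a haW' b hbW').2 (Or.inr (Or.inl ⟨rfl, rfl⟩))) with h | h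
  · exact good_subdiv_aux G G' W a b p q k hb hp hq hap haq hbp hbq hpq hNp hNq hG' D' hD' h ha hF
  · have e : (W.erase q).erase p = (W.erase p).erase q := Finset.erase_right_comm
    refine good_subdiv_aux G G' W b a q p k ha hq hp hbq hbp haq hap hpq.symm
      (fun x hx => (hNq x hx).trans Or.comm) (fun x hx => (hNp x hx).trans Or.comm) ?_ D'
      (by rw [e]; exact hD') h hb (by rw [e]; exact hF)
    rw [e]
    intro x hx y hy
    rw [hG' x hx y hy]
    tauto

/-! ### gluing two odd pieces at a vertex -/

theorem glue_aux (W1 W2 : Finset V) (c : V) (hc1 : c ∈ W1) (hc2 : c ∈ W2)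
    (hcap : ∀ x ∈ W1, x ∈ W2 → x = c)
    (D D1 D2 : V → V → Prop) (hirr1 : ¬ D1 c c) (hirr2 : ¬ D2 c c)
    (hD : ∀ x y, D x y ↔ (x ∈ W1 ∧ y ∈ W1 ∧ D1 x y) ∨ (x ∈ W2 ∧ y ∈ W2 ∧ D2 x y))
    (A1 A2 : Finset V) (h1 : A1 ⊆ W1) (h2 : A2 ⊆ W2) (hcl1 : Closed D1 W1 A1)
    (hcl2 : Closed D2 W2 A2) (hcc : c ∈ A1 ↔ c ∈ A2) : Closed D (W1 ∪ W2) (A1 ∪ A2) := by
  intro x hx w hw hxw hz
  have k1 : ∀ z ∈ A1 ∪ A2, z ∈ W1 → z ∈ A1 := by
    intro z hz hzW
    rcases Finset.mem_union.1 hz with h | h
    · exact h
    · have := hcap z hzW (h2 h)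
      subst this
      exact hcc.2 h
  have k2 : ∀ z ∈ A1 ∪ A2, z ∈ W2 → z ∈ A2 := by
    intro z hz hzW
    rcases Finset.mem_union.1 hz with h | h
    · have := hcap z (h1 h) hzW
      subst this
      exact hcc.1 h
    · exact h
  rcases (hD x w).1 hxw with ⟨a1, a2, a3⟩ | ⟨a1, a2, a3⟩
  · refine Finset.mem_union_left _ (hcl1 x (k1 x hx a1) w a2 a3 ?_)
    intro z hz1 hz2 hz3
    exact k1 z (hz z (Finset.mem_union_left _ hz1) ((hD x z).2 (Or.inl ⟨a1, hz1, hz2⟩)) hz3) hz1
  · refine Finset.mem_union_right _ (hcl2 x (k2 x hx a1) w a2 a3 ?_)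
    intro z hz1 hz2 hz3
    exact k2 z (hz z (Finset.mem_union_right _ hz1) ((hD x z).2 (Or.inr ⟨a1, hz1, hz2⟩)) hz3) hz1

/-- if `c` is coloured inside the first piece -/
theorem glue_case (W1 W2 : Finset V) (c : V) (hc1 : c ∈ W1) (hc2 : c ∈ W2)
    (hcap : ∀ x ∈ W1, x ∈ W2 → x = c)
    (D D1 D2 : V → V → Prop) (hirr1 : ¬ D1 c c) (hirr2 : ¬ D2 c c)
    (hD : ∀ x y, D x y ↔ (x ∈ W1 ∧ y ∈ W1 ∧ D1 x y) ∨ (x ∈ W2 ∧ y ∈ W2 ∧ D2 x y))
    (S : Finset V) (hS : Forc D (W1 ∪ W2) S) (hc : c ∈ cl D1 W1 (S.filter (· ∈ W1))) :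
    ∃ S1 S2, Forc D1 W1 S1 ∧ Forc D2 W2 S2 ∧ S1.card + S2.card ≤ S.card + 1 := by
  classical
  set S1 := S.filter (· ∈ W1) with hS1
  set S2 := insert c (S.filter (· ∈ W2)) with hS2
  have s1 : S1 ⊆ W1 := fun x hx => (Finset.mem_filter.1 hx).2
  have s2 : S2 ⊆ W2 := by
    intro x hx
    rcases Finset.mem_insert.1 hx with rfl | hx
    · exact hc2
    · exact (Finset.mem_filter.1 hx).2
  have hcT2 : c ∈ cl D2 W2 S2 := sub_cl _ s2 (Finset.mem_insert_self _ _)
  have hA : cl D1 W1 S1 ∪ cl D2 W2 S2 = W1 ∪ W2 := by
    apply hS.2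
    · intro x hx
      rcases Finset.mem_union.1 (hS.1 hx) with h | h
      · exact Finset.mem_union_left _ (sub_cl _ s1 (Finset.mem_filter.2 ⟨hx, h⟩))
      · exact Finset.mem_union_right _ (sub_cl _ s2 (Finset.mem_insert_of_mem
          (Finset.mem_filter.2 ⟨hx, h⟩)))
    · exact Finset.union_subset_union (cl_sub _ _ _) (cl_sub _ _ _)
    · exact glue_aux W1 W2 c hc1 hc2 hcap D D1 D2 hirr1 hirr2 hD _ _ (cl_sub _ _ _) (cl_sub _ _ _)
        (cl_closed _ _ _) (cl_closed _ _ _) ⟨fun _ => hcT2, fun _ => hc⟩
  refine ⟨S1, S2, forc_of_cl s1 ?_, forc_of_cl s2 ?_, ?_⟩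
  · apply Finset.Subset.antisymm (cl_sub _ _ _)
    intro x hx
    have : x ∈ cl D1 W1 S1 ∪ cl D2 W2 S2 := by rw [hA]; exact Finset.mem_union_left _ hx
    rcases Finset.mem_union.1 this with h | h
    · exact h
    · have := hcap x hx (cl_sub _ _ _ h)
      subst this
      exact hc
  · apply Finset.Subset.antisymm (cl_sub _ _ _)
    intro x hx
    have : x ∈ cl D1 W1 S1 ∪ cl D2 W2 S2 := by rw [hA]; exact Finset.mem_union_right _ hx
    rcases Finset.mem_union.1 this with h | h
    · have := hcap x (cl_sub _ _ _ h) hx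
      subst this
      exact hcT2
    · exact h
  · -- count
    have e1 : S1 ∪ (S.filter (· ∈ W2)).erase c ⊆ S := by
      intro x hx
      rcases Finset.mem_union.1 hx with h | h
      · exact (Finset.mem_filter.1 h).1
      · exact (Finset.mem_filter.1 (Finset.mem_erase.1 h).2).1
    have e2 : Disjoint S1 ((S.filter (· ∈ W2)).erase c) := by
      rw [Finset.disjoint_left]
      intro x hx hx'
      obtain ⟨h1, h2⟩ := Finset.mem_erase.1 hx'
      exact h1 (hcap x (Finset.mem_filter.1 hx).2 (Finset.mem_filter.1 h2).2)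
    have e3 := Finset.card_le_card e1
    rw [Finset.card_union_of_disjoint e2] at e3
    have e4 : S2 = insert c ((S.filter (· ∈ W2)).erase c) := by
      rw [hS2]
      ext x
      simp only [Finset.mem_insert, Finset.mem_erase]
      tauto
    have e5 : S2.card ≤ ((S.filter (· ∈ W2)).erase c).card + 1 := by
      rw [e4]; exact Finset.card_insert_le _ _
    omega

theorem good_glue (G : SimpleGraph V) (W1 W2 : Finset V) (c : V) (k1 k2 : ℕ) (hc1 : c ∈ W1) (hc2 : c ∈ W2)
    (hcap : ∀ x ∈ W1, x ∈ W2 → x = c)
    (hno : ∀ x ∈ W1, ∀ y ∈ W2, x ≠ c → y ≠ c → ¬ G.Adj x y)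
    (h1 : GoodK G W1 k1) (h2 : GoodK G W2 k2) :
    GoodK G (W1 ∪ W2) (k1 + k2) := by
  classical
  obtain ⟨D1, hD1, hF1⟩ := h1
  obtain ⟨D2, hD2, hF2⟩ := h2
  have hirr1 : ¬ D1 c c := fun h => (hD1 c hc1 c hc1).2.2 h h
  have hirr2 : ¬ D2 c c := fun h => (hD2 c hc2 c hc2).2.2 h h
  refine ⟨fun x y => (x ∈ W1 ∧ y ∈ W1 ∧ D1 x y) ∨ (x ∈ W2 ∧ y ∈ W2 ∧ D2 x y), ?_, ?_⟩
  · intro x hx y hy
    refine ⟨?_, ?_, ?_⟩
    · rintro (⟨a, b, h⟩ | ⟨a, b, h⟩)
      · exact (hD1 x a y b).1 h
      · exact (hD2 x a y b).1 h
    · intro h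
      by_cases hx1 : x ∈ W1
      · by_cases hy1 : y ∈ W1
        · rcases (hD1 x hx1 y hy1).2.1 h with h | h
          · exact Or.inl (Or.inl ⟨hx1, hy1, h⟩)
          · exact Or.inr (Or.inl ⟨hy1, hx1, h⟩)
        · have hy2 : y ∈ W2 := (Finset.mem_union.1 hy).resolve_left hy1
          have hyc : y ≠ c := fun e => hy1 (e ▸ hc1)
          have hxc : x = c := by
            by_contra hxc
            exact hno x hx1 y hy2 hxc hyc h
          have hx2 : x ∈ W2 := hxc ▸ hc2
          rcases (hD2 x hx2 y hy2).2.1 h with h | h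
          · exact Or.inl (Or.inr ⟨hx2, hy2, h⟩)
          · exact Or.inr (Or.inr ⟨hy2, hx2, h⟩)
      · have hx2 : x ∈ W2 := (Finset.mem_union.1 hx).resolve_left hx1
        have hxc : x ≠ c := fun e => hx1 (e ▸ hc1)
        by_cases hy2 : y ∈ W2
        · rcases (hD2 x hx2 y hy2).2.1 h with h | h
          · exact Or.inl (Or.inr ⟨hx2, hy2, h⟩)
          · exact Or.inr (Or.inr ⟨hy2, hx2, h⟩)
        · have hy1 : y ∈ W1 := (Finset.mem_union.1 hy).resolve_right hy2
          have hyc : y ≠ c := fun e => hy2 (e ▸ hc2)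
          exact absurd h.symm (hno y hy1 x hx2 hyc hxc)
    · rintro (⟨a, b, h⟩ | ⟨a, b, h⟩) (⟨a', b', h'⟩ | ⟨a', b', h'⟩)
      · exact (hD1 x a y b).2.2 h h'
      · have e1 := hcap x a b'
        have e2 := hcap y b a'
        subst e1
        rw [e2] at h
        exact hirr1 h
      · have e1 := hcap x b' a
        have e2 := hcap y a' b
        subst e1
        rw [e2] at h'
        exact hirr1 h'
      · exact (hD2 x a y b).2.2 h h'
  · intro S hS
    have hcard : (W1 ∪ W2).card + 1 = W1.card + W2.card := by
      have h3 : W1 ∩ W2 = {c} := by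
        ext x
        simp only [Finset.mem_inter, Finset.mem_singleton]
        exact ⟨fun h => hcap x h.1 h.2, fun h => h ▸ ⟨hc1, hc2⟩⟩
      have h4 := Finset.card_union_add_card_inter W1 W2
      rw [h3, Finset.card_singleton] at h4
      exact h4
    by_cases hcA : c ∈ cl D1 W1 (S.filter (· ∈ W1))
    · obtain ⟨S1, S2, f1, f2, f3⟩ := glue_case W1 W2 c hc1 hc2 hcap _ D1 D2 hirr1 hirr2
        (fun x y => Iff.rfl) S hS hcA
      have g1 := hF1 _ f1
      have g2 := hF2 _ f2
      omega
    · by_cases hcB : c ∈ cl D2 W2 (S.filter (· ∈ W2))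
      · obtain ⟨S1, S2, f1, f2, f3⟩ := glue_case W2 W1 c hc2 hc1 (fun x hx hx' => hcap x hx' hx)
          _ D2 D1 hirr2 hirr1 (fun x y => Or.comm) S (by rw [Finset.union_comm]; exact hS) hcB
        have g1 := hF1 _ f2
        have g2 := hF2 _ f1
        omega
      · exfalso
        have s1 : S.filter (· ∈ W1) ⊆ W1 := fun x hx => (Finset.mem_filter.1 hx).2
        have s2 : S.filter (· ∈ W2) ⊆ W2 := fun x hx => (Finset.mem_filter.1 hx).2
        have hA : cl D1 W1 (S.filter (· ∈ W1)) ∪ cl D2 W2 (S.filter (· ∈ W2)) = W1 ∪ W2 := by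
          apply hS.2
          · intro x hx
            rcases Finset.mem_union.1 (hS.1 hx) with h | h
            · exact Finset.mem_union_left _ (sub_cl _ s1 (Finset.mem_filter.2 ⟨hx, h⟩))
            · exact Finset.mem_union_right _ (sub_cl _ s2 (Finset.mem_filter.2 ⟨hx, h⟩))
          · exact Finset.union_subset_union (cl_sub _ _ _) (cl_sub _ _ _)
          · exact glue_aux W1 W2 c hc1 hc2 hcap _ D1 D2 hirr1 hirr2 (fun x y => Iff.rfl) _ _
              (cl_sub _ _ _) (cl_sub _ _ _) (cl_closed _ _ _) (cl_closed _ _ _)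
              ⟨fun h => absurd h hcA, fun h => absurd h hcB⟩
        have : c ∈ cl D1 W1 (S.filter (· ∈ W1)) ∪ cl D2 W2 (S.filter (· ∈ W2)) := by
          rw [hA]; exact Finset.mem_union_left _ hc1
        rcases Finset.mem_union.1 this with h | h
        · exact hcA h
        · exact hcB h

end internal

/-- A graph `G` on `V` is a comparability graph on the vertex set `W`: some orientation of the
induced subgraph `G[W]` is transitive. -/
def IsComparabilityOn (G : SimpleGraph V) (W : Finset V) : Prop :=
  ∃ D : V → V → Prop,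
    (∀ u ∈ W, ∀ v ∈ W, (D u v → G.Adj u v) ∧ (G.Adj u v → D u v ∨ D v u) ∧ (D u v → ¬ D v u)) ∧
    (∀ u ∈ W, ∀ v ∈ W, ∀ w ∈ W, D u v → D v w → D u w)

theorem le_MOF [Fintype V] [Nonempty V] [DecidableEq V] (G : SimpleGraph V)
    (k : ℕ)
    (h : GoodK G Finset.univ k) : Fintype.card V ≤ MOF G + k := by
  classical
  obtain ⟨D, hD, hF⟩ := h
  have hor : IsOrientation G D := ⟨fun u v => (hD u (mem_univ _) v (mem_univ _)).1,
    fun u v => (hD u (mem_univ _) v (mem_univ _)).2.1,
    fun u v => (hD u (mem_univ _) v (mem_univ _)).2.2⟩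
  have hne : ∀ D : V → V → Prop, {k | ∃ S : Finset V, IsForcingSet D S ∧ S.card = k}.Nonempty :=
    fun D => ⟨_, Finset.univ, ⟨Finset.univ_nonempty, fun v => Coloured.init (mem_univ _)⟩, rfl⟩
  obtain ⟨S, hS, hSc⟩ := Nat.sInf_mem (hne D)
  have hForc : Forc D Finset.univ S := by
    refine ⟨Finset.subset_univ _, fun A hA _ hcl => ?_⟩
    apply Finset.eq_univ_of_forall
    intro v
    have := hS.2 v
    induction this with
    | init h => exact hA h
    | @force x w _ hxw _ ih1 ih2 => exact hcl x ih1 w (mem_univ _) hxw (fun z _ hz hne => ih2 z hz hne)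
  have h1 := hF S hForc
  have h2 : forcingNumber D ≤ MOF G := by
    apply le_csSup
    · refine ⟨Fintype.card V, ?_⟩
      rintro k ⟨D, _, rfl⟩
      obtain ⟨S, _, hSc⟩ := Nat.sInf_mem (hne D)
      unfold forcingNumber
      rw [← hSc]
      exact Finset.card_le_univ _
    · exact ⟨D, hor, rfl⟩
  have h3 : forcingNumber D = S.card := hSc.symm
  rw [Finset.card_univ] at h1
  omega


end MOF293
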