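import Pool.Agent.H293.MOFBase

/-! Reduction of a triangle `u a b` with `deg u = 2`, `deg a = 3`. -/

set_option linter.unusedSectionVars false

namespace MOF293

open Finset

variable {V : Type*} [DecidableEq V]

theorem good_tri1 (G G' : SimpleGraph V) (W : Finset V) (u a b x : V) (k : ℕ)
    (hu : u ∈ W) (ha : a ∈ W) (hb : b ∈ W) (hx : x ∈ W)
    (hua : u ≠ a) (hub : u ≠ b) (hux : u ≠ x) (hab : a ≠ b) (hax : a ≠ x) (hbx : b ≠ x)
    (hNu : ∀ z ∈ W, G.Adj u z ↔ z = a ∨ z = b)
    (hNa : ∀ z ∈ W, G.Adj a z ↔ z = u ∨ z = b ∨ z = x)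
    (hG' : ∀ y ∈ (W.erase u).erase a, ∀ z ∈ (W.erase u).erase a,
      G'.Adj y z ↔ G.Adj y z ∨ (y = b ∧ z = x) ∨ (y = x ∧ z = b))
    (D' : V → V → Prop) (hD' : OrW G' ((W.erase u).erase a) D') (hd : D' b x)
    (hF : ∀ S, Forc D' ((W.erase u).erase a) S → ((W.erase u).erase a).card ≤ S.card + k) :
    GoodK G W (k + 1) := by
  classical
  set W' := (W.erase u).erase a with hW'
  set D : V → V → Prop := fun y z => if y = u then False else if z = u then (y = a ∨ y = b) else
    if z = a then False else if y = a then (z = b ∨ z = x) else D' y z ∧ G.Adj y z with hDdef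
  have dU : ∀ y, ¬ D u y := by intro y; simp [hDdef]
  have dTu : ∀ y, y ≠ u → (D y u ↔ y = a ∨ y = b) := by intro y hy; simp [hDdef, hy]
  have dTa : ∀ y, ¬ D y a := by intro y; by_cases hy : y = u <;> simp [hDdef, hy, hua.symm]
  have dA : ∀ y, y ≠ u → y ≠ a → (D a y ↔ y = b ∨ y = x) := by
    intro y hy hy'; simp [hDdef, hy, hy', hua.symm]
  have dI : ∀ y z, y ≠ u → y ≠ a → z ≠ u → z ≠ a → (D y z ↔ D' y z ∧ G.Adj y z) := by
    intro y z h1 h2 h3 h4; simp [hDdef, h1, h2, h3, h4]
  have hbW' : b ∈ W' := mem_e2.2 ⟨hab.symm, hub.symm, hb⟩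
  have hxW' : x ∈ W' := mem_e2.2 ⟨hax.symm, hux.symm, hx⟩
  have dJ : ∀ y ∈ W', ∀ z ∈ W', D' y z → D y z ∨ (y = b ∧ z = x) := by
    intro y hy z hz hyz
    obtain ⟨x1, x2, x3⟩ := mem_e2.1 hy
    obtain ⟨z1, z2, z3⟩ := mem_e2.1 hz
    rcases (hG' y hy z hz).1 ((hD' y hy z hz).1 hyz) with h | h | h
    · exact Or.inl ((dI y z x2 x1 z2 z1).2 ⟨hyz, h⟩)
    · exact Or.inr h
    · exfalso
      rw [h.1, h.2] at hyz
      exact (hD' b hbW' x hxW').2.2 hd hyz
  refine ⟨D, ?_, ?_⟩
  · intro y hy z hz
    by_cases hyu : y = u
    · subst hyu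
      by_cases hzu : z = y
      · subst hzu
        exact ⟨fun h => absurd h (dU _), fun h => absurd h (G.loopless.irrefl _), fun h => absurd h (dU _)⟩
      · exact ⟨fun h => absurd h (dU _), fun h => Or.inr ((dTu z hzu).2 ((hNu z hz).1 h)),
          fun h => absurd h (dU _)⟩
    · by_cases hzu : z = u
      · subst hzu
        exact ⟨fun h => ((hNu y hy).2 ((dTu y hyu).1 h)).symm,
          fun h => Or.inl ((dTu y hyu).2 ((hNu y hy).1 h.symm)), fun _ h => dU _ h⟩
      · by_cases hya : y = a
        · subst hya
          by_cases hza : z = y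
          · subst hza
            exact ⟨fun h => absurd h (dTa _), fun h => absurd h (G.loopless.irrefl _),
              fun h => absurd h (dTa _)⟩
          · refine ⟨fun h => (hNa z hz).2 (Or.inr ((dA z hzu hza).1 h)), fun h => Or.inl
              ((dA z hzu hza).2 (((hNa z hz).1 h).resolve_left hzu)), fun _ h => dTa _ h⟩
        · by_cases hza : z = a
          · subst hza
            refine ⟨fun h => absurd h (dTa _), fun h => Or.inr ((dA y hyu hya).2
              (((hNa y hy).1 h.symm).resolve_left hyu)), fun h => absurd h (dTa _)⟩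
          · rw [dI y z hyu hya hzu hza, dI z y hzu hza hyu hya]
            have h3 := hD' y (mem_e2.2 ⟨hya, hyu, hy⟩) z (mem_e2.2 ⟨hza, hzu, hz⟩)
            refine ⟨fun h => h.2, fun h => ?_, fun h h' => h3.2.2 h.1 h'.1⟩
            rcases h3.2.1 ((hG' y (mem_e2.2 ⟨hya, hyu, hy⟩) z (mem_e2.2 ⟨hza, hzu, hz⟩)).2
              (Or.inl h)) with h4 | h4
            · exact Or.inl ⟨h4, h⟩
            · exact Or.inr ⟨h4, h.symm⟩
  · intro S hS
    have haS : a ∈ S := source_mem hS ha (fun y _ => dTa y)
    set S0 := (S.erase u).erase a with hS0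
    have hsub : S0 ⊆ W' := Finset.erase_subset_erase _ (Finset.erase_subset_erase _ hS.1)
    have c5 : S0.card + 1 = (S.erase u).card :=
      Finset.card_erase_add_one (Finset.mem_erase.2 ⟨hua.symm, haS⟩)
    have c4 : (S.erase u).card ≤ S.card := Finset.card_le_card (Finset.erase_subset _ _)
    have c3 : W'.card + 2 = W.card := card_erase2 hu ha hua
    have inner : ∀ T, T ⊆ W' → Closed D' W' T → ∀ A : Finset V, (∀ z ∈ A, z ∈ W' → z ∈ T) →
        ∀ y ∈ T, (y = b → x ∈ T) → ∀ w ∈ W', D y w → (∀ z ∈ W, D y z → z ≠ w → z ∈ A) → w ∈ T := by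
      intro T hTW hTc A hAT y hy hyb w hw hyw hz
      obtain ⟨hya, hyu, hyW⟩ := mem_e2.1 (hTW hy)
      obtain ⟨hwa, hwu, hwW⟩ := mem_e2.1 hw
      refine hTc y hy w hw ((dI y w hyu hya hwu hwa).1 hyw).1 ?_
      intro z hz1 hz2 hz3
      rcases dJ y (hTW hy) z hz1 hz2 with h | h
      · exact hAT z (hz z (mem_e2.1 hz1).2.2 h hz3) hz1
      · rw [h.2]; exact hyb h.1
    -- general closing argument
    have close2 : ∀ T, S0 ⊆ T → T ⊆ W' →
        Closed D W (insert u (insert a T)) → T = W' := by
      intro T hST hTW hcl
      have hA : insert u (insert a T) = W := by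
        apply hS.2 _ _ _ hcl
        · intro y hy
          by_cases hya : y = a
          · rw [hya]; simp
          · by_cases hyu : y = u
            · rw [hyu]; simp
            · exact Finset.mem_insert_of_mem (Finset.mem_insert_of_mem (hST
                (mem_e2.2 ⟨hya, hyu, hy⟩)))
        · intro y hy
          rcases Finset.mem_insert.1 hy with rfl | hy
          · exact hu
          · rcases Finset.mem_insert.1 hy with rfl | hy
            · exact ha
            · exact (mem_e2.1 (hTW hy)).2.2
      apply Finset.Subset.antisymm hTW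
      intro y hy
      obtain ⟨h1, h2, h3⟩ := mem_e2.1 hy
      rw [← hA] at h3
      exact (Finset.mem_insert.1 ((Finset.mem_insert.1 h3).resolve_left h2)).resolve_left h1
    have hAT2 : ∀ T : Finset V, ∀ z ∈ insert u (insert a T), z ∈ W' → z ∈ T := by
      intro T z hz hz'
      obtain ⟨a, b, _⟩ := mem_e2.1 hz'
      exact (Finset.mem_insert.1 ((Finset.mem_insert.1 hz).resolve_left b)).resolve_left a
    have full : ∀ T, S0 ⊆ T → T ⊆ W' → Closed D' W' T → b ∈ T → x ∈ T → T = W' := by
      intro T hST hTW hTc hbT hxT
      apply close2 T hST hTW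
      intro y hy w hw hyw hz
      by_cases hwa : w = a
      · rw [hwa]; simp
      · by_cases hwu : w = u
        · rw [hwu]; simp
        · refine Finset.mem_insert_of_mem (Finset.mem_insert_of_mem ?_)
          have hwW' : w ∈ W' := mem_e2.2 ⟨hwa, hwu, hw⟩
          rcases Finset.mem_insert.1 hy with e | hy
          · subst e
            exact absurd hyw (dU _)
          · rcases Finset.mem_insert.1 hy with e | hy
            · subst e
              rcases (dA w hwu hwa).1 hyw with h | h
              · rw [h]; exact hbT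
              · rw [h]; exact hxT
            · exact inner T hTW hTc _ (hAT2 T) y hy (fun _ => hxT) w hwW' hyw hz
    set T0 := cl D' W' S0 with hT0
    have hT0W : T0 ⊆ W' := cl_sub _ _ _
    have hT0c : Closed D' W' T0 := cl_closed _ _ _
    have hST0 : S0 ⊆ T0 := sub_cl _ hsub
    by_cases huS : u ∈ S
    · have c6 := Finset.card_erase_add_one huS
      have hchoose : ∃ w ∈ W', ∀ T, T0 ⊆ T → w ∈ T → b ∈ T ∧ x ∈ T := by
        by_cases hxT : x ∈ T0
        · exact ⟨b, hbW', fun T hT hb => ⟨hb, hT hxT⟩⟩
        · have hbT : b ∈ T0 := by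
            by_contra hbT
            apply hxT
            have : T0 = W' := by
              apply close2 T0 hST0 hT0W
              intro y hy w hw hyw hz
              by_cases hwa : w = a
              · rw [hwa]; simp
              · by_cases hwu : w = u
                · rw [hwu]; simp
                · refine Finset.mem_insert_of_mem (Finset.mem_insert_of_mem ?_)
                  have hwW' : w ∈ W' := mem_e2.2 ⟨hwa, hwu, hw⟩
                  rcases Finset.mem_insert.1 hy with e | hy
                  · subst e
                    exact absurd hyw (dU _)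
                  · rcases Finset.mem_insert.1 hy with e | hy
                    · subst e
                      exfalso
                      rcases (dA w hwu hwa).1 hyw with h | h
                      · exact hxT (hAT2 T0 x (hz x hx ((dA x hux.symm hax.symm).2 (Or.inr rfl))
                          (by rw [h]; exact hbx.symm)) hxW')
                      · exact hbT (hAT2 T0 b (hz b hb ((dA b hub.symm hab.symm).2 (Or.inl rfl))
                          (by rw [h]; exact hbx)) hbW')
                    · exact inner T0 hT0W hT0c _ (hAT2 T0) y hy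
                        (fun e => absurd (e ▸ hy) hbT) w hwW' hyw hz
            rw [this]; exact hxW'
          exact ⟨x, hxW', fun T hT hx => ⟨hT hbT, hx⟩⟩
      obtain ⟨w, hwW', hw⟩ := hchoose
      have hsub1 : insert w S0 ⊆ W' := by
        intro y hy
        rcases Finset.mem_insert.1 hy with rfl | hy
        · exact hwW'
        · exact hsub hy
      have h01 : S0 ⊆ cl D' W' (insert w S0) :=
        fun y hy => sub_cl _ hsub1 (Finset.mem_insert_of_mem hy)
      have hw2 := hw (cl D' W' (insert w S0)) (cl_min h01 (cl_sub _ _ _) (cl_closed _ _ _))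
        (sub_cl _ hsub1 (Finset.mem_insert_self _ _))
      have h6 := hF _ (forc_of_cl hsub1 (full _ h01 (cl_sub _ _ _)
          (cl_closed _ _ _) hw2.1 hw2.2))
      have h7 : (insert w S0).card ≤ S0.card + 1 := Finset.card_insert_le _ _
      omega
    · have hT : T0 = W' := by
        by_cases hboth : b ∈ T0 ∧ x ∈ T0
        · exact full T0 hST0 hT0W hT0c hboth.1 hboth.2
        · exfalso
          have hAT : ∀ z : V, z ∈ (insert a T0 : Finset V) → z ∈ W' → z ∈ T0 := fun z hz hz' =>
            (Finset.mem_insert.1 hz).resolve_left (mem_e2.1 hz').1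
          have huA : u ∉ (insert a T0 : Finset V) := by
            intro h
            rcases Finset.mem_insert.1 h with h | h
            · exact hua h
            · exact (mem_e2.1 (hT0W h)).2.1 rfl
          have hA : insert a T0 = W := by
            apply hS.2
            · intro y hy
              by_cases hya : y = a
              · rw [hya]; simp
              · exact Finset.mem_insert_of_mem (hST0 (mem_e2.2 ⟨hya, fun e => huS (e ▸ hy), hy⟩))
            · intro y hy
              rcases Finset.mem_insert.1 hy with rfl | hy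
              · exact ha
              · exact (mem_e2.1 (hT0W hy)).2.2
            · intro y hy w hw hyw hz
              by_cases hwa : w = a
              · rw [hwa]; simp
              · rcases Finset.mem_insert.1 hy with e | hy
                · exfalso
                  subst e
                  by_cases hwu : w = u
                  · exact hboth ⟨hAT b (hz b hb ((dA b hub.symm hab.symm).2 (Or.inl rfl))
                      (by rw [hwu]; exact hub.symm)) hbW',
                      hAT x (hz x hx ((dA x hux.symm hax.symm).2 (Or.inr rfl))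
                      (by rw [hwu]; exact hux.symm)) hxW'⟩
                  · exact huA (hz u hu ((dTu y hua.symm).2 (Or.inl rfl)) (Ne.symm hwu))
                · obtain ⟨hya, hyu, hyW⟩ := mem_e2.1 (hT0W hy)
                  by_cases hwu : w = u
                  · exfalso
                    subst hwu
                    have hyb : y = b := ((dTu y hyu).1 hyw).resolve_left hya
                    subst hyb
                    apply hboth
                    refine ⟨hy, hT0c y hy x hxW' hd ?_⟩
                    intro z hz1 hz2 hz3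
                    rcases dJ y (hT0W hy) z hz1 hz2 with h | h
                    · exact hAT z (hz z (mem_e2.1 hz1).2.2 h (mem_e2.1 hz1).2.1) hz1
                    · exact absurd h.2 hz3
                  · by_cases hyb : y = b
                    · exfalso
                      exact huA (hz u hu ((dTu y hyu).2 (Or.inr hyb)) (Ne.symm hwu))
                    · exact Finset.mem_insert_of_mem (inner T0 hT0W hT0c (insert a T0) hAT y hy
                        (fun h => absurd h hyb) w (mem_e2.2 ⟨hwa, hwu, hw⟩) hyw hz)
          have : u ∈ (insert a T0 : Finset V) := by rw [hA]; exact hu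
          exact huA this
      have := hF _ (forc_of_cl hsub hT)
      omega

theorem good_tri2 (G G' : SimpleGraph V) (W : Finset V) (u a b x : V) (k : ℕ)
    (hu : u ∈ W) (ha : a ∈ W) (hb : b ∈ W) (hx : x ∈ W)
    (hua : u ≠ a) (hub : u ≠ b) (hux : u ≠ x) (hab : a ≠ b) (hax : a ≠ x) (hbx : b ≠ x)
    (hNu : ∀ z ∈ W, G.Adj u z ↔ z = a ∨ z = b)
    (hNa : ∀ z ∈ W, G.Adj a z ↔ z = u ∨ z = b ∨ z = x)
    (hG' : ∀ y ∈ (W.erase u).erase a, ∀ z ∈ (W.erase u).erase a,
      G'.Adj y z ↔ G.Adj y z ∨ (y = b ∧ z = x) ∨ (y = x ∧ z = b))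
    (D' : V → V → Prop) (hD' : OrW G' ((W.erase u).erase a) D') (hd : D' x b)
    (hF : ∀ S, Forc D' ((W.erase u).erase a) S → ((W.erase u).erase a).card ≤ S.card + k) :
    GoodK G W (k + 1) := by
  classical
  set W' := (W.erase u).erase a with hW'
  set D : V → V → Prop := fun y z => if z = u then False else if y = u then (z = a ∨ z = b) else
    if y = a then z = b else if z = a then y = x else D' y z ∧ G.Adj y z with hDdef
  have dU : ∀ y, ¬ D y u := by intro y; simp [hDdef]
  have dTu : ∀ z, z ≠ u → (D u z ↔ z = a ∨ z = b) := by intro y hy; simp [hDdef, hy]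
  have dA : ∀ z, z ≠ u → (D a z ↔ z = b) := by intro z hz; simp [hDdef, hz, hua.symm]
  have dTa : ∀ y, y ≠ u → y ≠ a → (D y a ↔ y = x) := by
    intro y hy hy'; simp [hDdef, hy, hy', hua.symm]
  have dI : ∀ y z, y ≠ u → y ≠ a → z ≠ u → z ≠ a → (D y z ↔ D' y z ∧ G.Adj y z) := by
    intro y z h1 h2 h3 h4; simp [hDdef, h1, h2, h3, h4]
  have hbW' : b ∈ W' := mem_e2.2 ⟨hab.symm, hub.symm, hb⟩
  have hxW' : x ∈ W' := mem_e2.2 ⟨hax.symm, hux.symm, hx⟩
  have dJ : ∀ y ∈ W', ∀ z ∈ W', D' y z → D y z ∨ (y = x ∧ z = b) := by
    intro y hy z hz hyz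
    obtain ⟨x1, x2, x3⟩ := mem_e2.1 hy
    obtain ⟨z1, z2, z3⟩ := mem_e2.1 hz
    rcases (hG' y hy z hz).1 ((hD' y hy z hz).1 hyz) with h | h | h
    · exact Or.inl ((dI y z x2 x1 z2 z1).2 ⟨hyz, h⟩)
    · exfalso
      rw [h.1, h.2] at hyz
      exact (hD' x hxW' b hbW').2.2 hd hyz
    · exact Or.inr h
  refine ⟨D, ?_, ?_⟩
  · intro y hy z hz
    by_cases hyu : y = u
    · subst hyu
      by_cases hzu : z = y
      · subst hzu
        exact ⟨fun h => absurd h (dU _), fun h => absurd h (G.loopless.irrefl _), fun h => absurd h (dU _)⟩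
      · exact ⟨fun h => (hNu z hz).2 ((dTu z hzu).1 h),
          fun h => Or.inl ((dTu z hzu).2 ((hNu z hz).1 h)), fun _ h => dU _ h⟩
    · by_cases hzu : z = u
      · subst hzu
        exact ⟨fun h => absurd h (dU _), fun h => Or.inr ((dTu y hyu).2 ((hNu y hy).1 h.symm)),
          fun h => absurd h (dU _)⟩
      · by_cases hya : y = a
        · subst hya
          by_cases hza : z = y
          · subst hza
            exact ⟨fun h => absurd ((dA _ hyu).1 h) hab, fun h => absurd h (G.loopless.irrefl _),
              fun h => absurd ((dA _ hyu).1 h) hab⟩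
          · refine ⟨fun h => (hNa z hz).2 (Or.inr (Or.inl ((dA z hzu).1 h))), fun h => ?_, fun h h' => ?_⟩
            · rcases (hNa z hz).1 h with h | h | h
              · exact absurd h hzu
              · exact Or.inl ((dA z hzu).2 h)
              · exact Or.inr ((dTa z hzu hza).2 h)
            · exact hbx (((dA z hzu).1 h).symm.trans ((dTa z hzu hza).1 h'))
        · by_cases hza : z = a
          · subst hza
            refine ⟨fun h => ((hNa y hy).2 (Or.inr (Or.inr ((dTa y hyu hya).1 h)))).symm,
              fun h => ?_, fun h h' => ?_⟩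
            · rcases (hNa y hy).1 h.symm with h | h | h
              · exact absurd h hyu
              · exact Or.inr ((dA y hyu).2 h)
              · exact Or.inl ((dTa y hyu hya).2 h)
            · exact hbx (((dA y hyu).1 h').symm.trans ((dTa y hyu hya).1 h))
          · rw [dI y z hyu hya hzu hza, dI z y hzu hza hyu hya]
            have h3 := hD' y (mem_e2.2 ⟨hya, hyu, hy⟩) z (mem_e2.2 ⟨hza, hzu, hz⟩)
            refine ⟨fun h => h.2, fun h => ?_, fun h h' => h3.2.2 h.1 h'.1⟩
            rcases h3.2.1 ((hG' y (mem_e2.2 ⟨hya, hyu, hy⟩) z (mem_e2.2 ⟨hza, hzu, hz⟩)).2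
              (Or.inl h)) with h4 | h4
            · exact Or.inl ⟨h4, h⟩
            · exact Or.inr ⟨h4, h.symm⟩
  · intro S hS
    have huS : u ∈ S := source_mem hS hu (fun y _ => dU y)
    set S0 := (S.erase u).erase a with hS0
    have hsub : S0 ⊆ W' := Finset.erase_subset_erase _ (Finset.erase_subset_erase _ hS.1)
    have c5 := Finset.card_erase_add_one huS
    have c4 : S0.card ≤ (S.erase u).card := Finset.card_le_card (Finset.erase_subset _ _)
    have c3 : W'.card + 2 = W.card := card_erase2 hu ha hua
    have inner : ∀ T, T ⊆ W' → Closed D' W' T → ∀ A : Finset V, (∀ z ∈ A, z ∈ W' → z ∈ T) →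
        ∀ y ∈ T, (y = x → b ∈ T) → ∀ w ∈ W', D y w → (∀ z ∈ W, D y z → z ≠ w → z ∈ A) → w ∈ T := by
      intro T hTW hTc A hAT y hy hyb w hw hyw hz
      obtain ⟨hya, hyu, hyW⟩ := mem_e2.1 (hTW hy)
      obtain ⟨hwa, hwu, hwW⟩ := mem_e2.1 hw
      refine hTc y hy w hw ((dI y w hyu hya hwu hwa).1 hyw).1 ?_
      intro z hz1 hz2 hz3
      rcases dJ y (hTW hy) z hz1 hz2 with h | h
      · exact hAT z (hz z (mem_e2.1 hz1).2.2 h hz3) hz1
      · rw [h.2]; exact hyb h.1
    have hAT2 : ∀ T : Finset V, ∀ z ∈ insert u (insert a T), z ∈ W' → z ∈ T := by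
      intro T z hz hz'
      obtain ⟨a, b, _⟩ := mem_e2.1 hz'
      exact (Finset.mem_insert.1 ((Finset.mem_insert.1 hz).resolve_left b)).resolve_left a
    have full : ∀ T, S0 ⊆ T → T ⊆ W' → Closed D' W' T → b ∈ T → T = W' := by
      intro T hST hTW hTc hbT
      have hA : insert u (insert a T) = W := by
        apply hS.2
        · intro y hy
          by_cases hya : y = a
          · rw [hya]; simp
          · by_cases hyu : y = u
            · rw [hyu]; simp
            · exact Finset.mem_insert_of_mem (Finset.mem_insert_of_mem (hST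
                (mem_e2.2 ⟨hya, hyu, hy⟩)))
        · intro y hy
          rcases Finset.mem_insert.1 hy with rfl | hy
          · exact hu
          · rcases Finset.mem_insert.1 hy with rfl | hy
            · exact ha
            · exact (mem_e2.1 (hTW hy)).2.2
        · intro y hy w hw hyw hz
          by_cases hwa : w = a
          · rw [hwa]; simp
          · by_cases hwu : w = u
            · rw [hwu]; simp
            · refine Finset.mem_insert_of_mem (Finset.mem_insert_of_mem ?_)
              have hwW' : w ∈ W' := mem_e2.2 ⟨hwa, hwu, hw⟩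
              rcases Finset.mem_insert.1 hy with e | hy
              · subst e
                rw [((dTu w hwu).1 hyw).resolve_left hwa]; exact hbT
              · rcases Finset.mem_insert.1 hy with e | hy
                · subst e
                  rw [(dA w hwu).1 hyw]; exact hbT
                · exact inner T hTW hTc _ (hAT2 T) y hy (fun _ => hbT) w hwW' hyw hz
      apply Finset.Subset.antisymm hTW
      intro y hy
      obtain ⟨h1, h2, h3⟩ := mem_e2.1 hy
      rw [← hA] at h3
      exact (Finset.mem_insert.1 ((Finset.mem_insert.1 h3).resolve_left h2)).resolve_left h1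
    by_cases haS : a ∈ S
    · have c6 : S0.card + 1 = (S.erase u).card :=
        Finset.card_erase_add_one (Finset.mem_erase.2 ⟨hua.symm, haS⟩)
      have hsub1 : insert b S0 ⊆ W' := by
        intro y hy
        rcases Finset.mem_insert.1 hy with rfl | hy
        · exact hbW'
        · exact hsub hy
      have h6 := hF _ (forc_of_cl hsub1 (full _
        (fun y hy => sub_cl _ hsub1 (Finset.mem_insert_of_mem hy)) (cl_sub _ _ _)
          (cl_closed _ _ _) (sub_cl _ hsub1 (Finset.mem_insert_self _ _))))
      have h7 : (insert b S0).card ≤ S0.card + 1 := Finset.card_insert_le _ _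
      omega
    · set T0 := cl D' W' S0 with hT0
      have hT0W : T0 ⊆ W' := cl_sub _ _ _
      have hT0c : Closed D' W' T0 := cl_closed _ _ _
      have hST0 : S0 ⊆ T0 := sub_cl _ hsub
      have hbT : b ∈ T0 := by
        by_contra hbT
        have hAT : ∀ z : V, z ∈ (insert u T0 : Finset V) → z ∈ W' → z ∈ T0 := fun z hz hz' =>
          (Finset.mem_insert.1 hz).resolve_left (mem_e2.1 hz').2.1
        have haA : a ∉ (insert u T0 : Finset V) := by
          intro h
          rcases Finset.mem_insert.1 h with h | h
          · exact hua h.symm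
          · exact (mem_e2.1 (hT0W h)).1 rfl
        have hA : insert u T0 = W := by
          apply hS.2
          · intro y hy
            by_cases hyu : y = u
            · rw [hyu]; simp
            · exact Finset.mem_insert_of_mem (hST0 (mem_e2.2 ⟨fun e => haS (e ▸ hy), hyu, hy⟩))
          · intro y hy
            rcases Finset.mem_insert.1 hy with rfl | hy
            · exact hu
            · exact (mem_e2.1 (hT0W hy)).2.2
          · intro y hy w hw hyw hz
            by_cases hwu : w = u
            · rw [hwu]; simp
            · rcases Finset.mem_insert.1 hy with e | hy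
              · exfalso
                subst e
                by_cases hwa : w = a
                · exact hbT (hAT b (hz b hb ((dTu b hub.symm).2 (Or.inr rfl))
                    (by rw [hwa]; exact hab.symm)) hbW')
                · exact haA (hz a ha ((dTu a hua.symm).2 (Or.inl rfl)) (Ne.symm hwa))
              · obtain ⟨hya, hyu, hyW⟩ := mem_e2.1 (hT0W hy)
                by_cases hwa : w = a
                · exfalso
                  subst hwa
                  have hyx : y = x := (dTa y hyu hya).1 hyw
                  subst hyx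
                  apply hbT
                  refine hT0c y hy b hbW' hd ?_
                  intro z hz1 hz2 hz3
                  rcases dJ y (hT0W hy) z hz1 hz2 with h | h
                  · exact hAT z (hz z (mem_e2.1 hz1).2.2 h (mem_e2.1 hz1).1) hz1
                  · exact absurd h.2 hz3
                · by_cases hyx : y = x
                  · exfalso
                    exact haA (hz a ha ((dTa y hyu hya).2 hyx) (Ne.symm hwa))
                  · exact Finset.mem_insert_of_mem (inner T0 hT0W hT0c (insert u T0) hAT y hy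
                      (fun h => absurd h hyx) w (mem_e2.2 ⟨hwa, hwu, hw⟩) hyw hz)
        have : b ∈ (insert u T0 : Finset V) := by rw [hA]; exact hb
        exact hbT ((Finset.mem_insert.1 this).resolve_left hub.symm)
      have := hF _ (forc_of_cl hsub (full T0 hST0 hT0W hT0c hbT))
      omega

/-- `u a b` is a triangle, `deg u = 2`, `deg a = 3` with third neighbour `x`: delete `u`, `a` and
join `b` and `x`. -/
theorem good_tri (G G' : SimpleGraph V) (W : Finset V) (u a b x : V) (k : ℕ)
    (hu : u ∈ W) (ha : a ∈ W) (hb : b ∈ W) (hx : x ∈ W)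
    (hua : u ≠ a) (hub : u ≠ b) (hux : u ≠ x) (hab : a ≠ b) (hax : a ≠ x) (hbx : b ≠ x)
    (hNu : ∀ z ∈ W, G.Adj u z ↔ z = a ∨ z = b)
    (hNa : ∀ z ∈ W, G.Adj a z ↔ z = u ∨ z = b ∨ z = x)
    (hG' : ∀ y ∈ (W.erase u).erase a, ∀ z ∈ (W.erase u).erase a,
      G'.Adj y z ↔ G.Adj y z ∨ (y = b ∧ z = x) ∨ (y = x ∧ z = b))
    (h : GoodK G' ((W.erase u).erase a) k) : GoodK G W (k + 1) := by
  obtain ⟨D', hD', hF⟩ := h
  have hbW' : b ∈ (W.erase u).erase a := mem_e2.2 ⟨hab.symm, hub.symm, hb⟩
  have hxW' : x ∈ (W.erase u).erase a := mem_e2.2 ⟨hax.symm, hux.symm, hx⟩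
  rcases (hD' b hbW' x hxW').2.1 ((hG' b hbW' x hxW').2 (Or.inr (Or.inl ⟨rfl, rfl⟩))) with h | h
  · exact good_tri1 G G' W u a b x k hu ha hb hx hua hub hux hab hax hbx hNu hNa hG' D' hD' h hF
  · exact good_tri2 G G' W u a b x k hu ha hb hx hua hub hux hab hax hbx hNu hNa hG' D' hD' h hF

end MOF293
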